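import Pool.Agent.helper36.BP.SpecE

set_option autoImplicit false

open Finset
open Pool.Agent.FI Pool.Agent.HK
open Pool.Agent.CH (nit rgh ll2)
open Pool.Agent.SK (tr0 Th)

noncomputable section

namespace Pool.Agent.BP

private theorem DYB_norm (t x : ℝ) : ‖nit t x‖ = 1 := by
  unfold nit
  rw [Complex.norm_exp]
  simp

private theorem DYB_shift (f : ℤ → ℂ) (hf : ∀ n, ‖f n‖ ≤ 1) (a b : ℤ) (h : ℕ) (hab : a ≤ b) :
    ‖∑ n ∈ Ioc a b, f n - ∑ n ∈ Ioc a b, f (n + h)‖ ≤ 2 * h := by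
  have e1 : ∑ n ∈ Ioc a b, f (n + h) = ∑ n ∈ Ioc (a + h) (b + h), f n := by
    rw [← Finset.map_add_right_Ioc, Finset.sum_map]
    rfl
  have hh : (0 : ℤ) ≤ h := Int.natCast_nonneg h
  have cons : ∀ x y z : ℤ, x ≤ y → y ≤ z →
      ∑ n ∈ Ioc x y, f n + ∑ n ∈ Ioc y z, f n = ∑ n ∈ Ioc x z, f n := by
    intro x y z hxy hyz
    rw [← Finset.Ioc_union_Ioc_eq_Ioc hxy hyz, Finset.sum_union]
    exact Finset.Ioc_disjoint_Ioc_of_le (le_refl y)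
  have e2 := cons a b (b + h) hab (by linarith)
  have e3 := cons a (a + h) (b + h) (by linarith) (by linarith)
  have e4 : ∑ n ∈ Ioc a b, f n - ∑ n ∈ Ioc a b, f (n + h) =
      ∑ n ∈ Ioc a (a + h), f n - ∑ n ∈ Ioc b (b + h), f n := by
    rw [e1]
    have : ∑ n ∈ Ioc a b, f n + ∑ n ∈ Ioc b (b + h), f n =
        ∑ n ∈ Ioc a (a + h), f n + ∑ n ∈ Ioc (a + h) (b + h), f n := by rw [e2, e3]
    linear_combination this
  rw [e4]
  have bd : ∀ c : ℤ, ‖∑ n ∈ Ioc c (c + h), f n‖ ≤ h := by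
    intro c
    refine (norm_sum_le _ _).trans ?_
    refine (Finset.sum_le_sum fun n _ => hf n).trans ?_
    simp
  calc ‖∑ n ∈ Ioc a (a + h), f n - ∑ n ∈ Ioc b (b + h), f n‖
      ≤ ‖∑ n ∈ Ioc a (a + h), f n‖ + ‖∑ n ∈ Ioc b (b + h), f n‖ := norm_sub_le _ _
    _ ≤ h + h := add_le_add (bd a) (bd b)
    _ = 2 * h := by ring

/-- the cardinality of the range of summation -/
private theorem DYB_card (N : ℕ) (P : ℝ) (a b : ℤ) (hN : 1 ≤ N) (hab : a < b)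
    (h : ∀ m ∈ Ioc a b, |(m : ℝ) + P| ≤ 50 * (N : ℝ)) : ((Ioc a b).card : ℝ) ≤ 101 * N := by
  have h1 := abs_le.1 (h (a + 1) (by rw [Finset.mem_Ioc]; omega))
  have h2 := abs_le.1 (h b (by rw [Finset.mem_Ioc]; omega))
  have hN1 : (1 : ℝ) ≤ N := by exact_mod_cast hN
  have h3 : ((Ioc a b).card : ℝ) = (b : ℝ) - a := by
    rw [Int.card_Ioc]
    have : (((b - a).toNat : ℤ) : ℝ) = ((b - a : ℤ) : ℝ) := by
      rw [Int.toNat_of_nonneg (by omega)]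
    rw [Int.cast_natCast] at this
    rw [this]
    push_cast
    ring
  rw [h3]
  have h4 : ((a + 1 : ℤ) : ℝ) = a + 1 := by push_cast; ring
  rw [h4] at h1
  linarith [h1.1, h2.2]

theorem DYB (hLOB : LOB_stmt) : DYB_stmt := by
  obtain ⟨C, hC, hloc⟩ := hLOB
  refine ⟨C + 450, by omega, ?_⟩
  intro l N α β P0 Q0 ρ a b hl hN hρ0 hρ1 hm1 hm2 hND
  set Y : ℕ := ⌊(N : ℝ) ^ (2 / 5 : ℝ)⌋₊ with hYdef
  set F : ℝ := Real.exp (C * (l : ℝ) ^ 3) * (N : ℝ) ^ (-(1 / (C * (l : ℝ) ^ 6))) / ρ with hF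
  have hN1 : (1 : ℝ) ≤ N := by exact_mod_cast hN
  have hN0 : (0 : ℝ) < N := by linarith
  have hl1 : (1 : ℝ) ≤ l := by exact_mod_cast hl
  have hC0 : (0 : ℝ) < C := by exact_mod_cast hC
  have hF0 : 0 ≤ F := by positivity
  by_cases hab : a < b
  swap
  · rw [Finset.Ioc_eq_empty (by omega), Finset.sum_empty, norm_zero]
    positivity
  have hcard : ((Ioc a b).card : ℝ) ≤ 101 * N :=
    DYB_card N P0 a b hN hab fun m hm => (hND m hm).2.1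
  set P : ℝ := (N : ℝ) ^ (2 / 5 : ℝ) with hP
  have hP1 : 1 ≤ P := Real.one_le_rpow hN1 (by norm_num)
  have hYP : (Y : ℝ) ≤ P := Nat.floor_le (by positivity)
  have hPY : P / 2 ≤ Y := by
    have h2 : P < Y + 1 := Nat.lt_floor_add_one P
    have h3 : 1 ≤ Y := Nat.le_floor (by simpa using hP1)
    have h4 : (1 : ℝ) ≤ Y := by exact_mod_cast h3
    linarith
  have hY0 : (0 : ℝ) < Y := by linarith
  have hPP : P * P = (N : ℝ) ^ (4 / 5 : ℝ) := by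
    rw [hP, ← Real.rpow_add hN0]; norm_num
  set f : ℤ → ℂ := fun m => nit α |(m : ℝ) + P0| * nit β |(m : ℝ) + Q0| with hf
  have hf1 : ∀ n, ‖f n‖ ≤ 1 := by
    intro n
    simp only [hf]
    rw [norm_mul, DYB_norm, DYB_norm, mul_one]
  set S : ℂ := ∑ m ∈ Ioc a b, f m with hS
  -- averaged identity
  have key1 : ‖∑ u ∈ Ioc 0 Y, ∑ v ∈ Ioc 0 Y, (S - ∑ n ∈ Ioc a b, f (n + ((u * v : ℕ) : ℤ)))‖ ≤
      (Y : ℝ) * (Y * (2 * (Y * Y))) := by
    refine (norm_sum_le _ _).trans ?_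
    have : ∀ u ∈ Ioc 0 Y, ‖∑ v ∈ Ioc 0 Y, (S - ∑ n ∈ Ioc a b, f (n + ((u * v : ℕ) : ℤ)))‖ ≤
        (Y : ℝ) * (2 * (Y * Y)) := by
      intro u hu
      refine (norm_sum_le _ _).trans ?_
      have h5 : ∀ v ∈ Ioc 0 Y, ‖S - ∑ n ∈ Ioc a b, f (n + ((u * v : ℕ) : ℤ))‖ ≤
          2 * ((Y : ℝ) * Y) := by
        intro v hv
        refine (DYB_shift f hf1 a b (u * v) hab.le).trans ?_
        have hu' : (u : ℝ) ≤ Y := by exact_mod_cast (Finset.mem_Ioc.1 hu).2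
        have hv' : (v : ℝ) ≤ Y := by exact_mod_cast (Finset.mem_Ioc.1 hv).2
        push_cast
        have : (u : ℝ) * v ≤ Y * Y := mul_le_mul hu' hv' (by positivity) (by positivity)
        linarith
      refine (Finset.sum_le_sum h5).trans ?_
      simp
    refine (Finset.sum_le_sum this).trans ?_
    simp
  have key2 : ‖∑ u ∈ Ioc 0 Y, ∑ v ∈ Ioc 0 Y, ∑ n ∈ Ioc a b, f (n + ((u * v : ℕ) : ℤ))‖ ≤
      101 * N * ((N : ℝ) ^ (4 / 5 : ℝ) * F) := by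
    have e5 : ∑ u ∈ Ioc 0 Y, ∑ v ∈ Ioc 0 Y, ∑ n ∈ Ioc a b, f (n + ((u * v : ℕ) : ℤ)) =
        ∑ n ∈ Ioc a b, ∑ u ∈ Ioc 0 Y, ∑ v ∈ Ioc 0 Y,
          nit α |((n : ℝ) + P0) + (u : ℝ) * v| * nit β |((n : ℝ) + Q0) + (u : ℝ) * v| := by
      have e6 : ∀ u ∈ Ioc 0 Y, ∑ v ∈ Ioc 0 Y, ∑ n ∈ Ioc a b, f (n + ((u * v : ℕ) : ℤ)) =
          ∑ n ∈ Ioc a b, ∑ v ∈ Ioc 0 Y, f (n + ((u * v : ℕ) : ℤ)) := fun u _ => Finset.sum_comm
      rw [Finset.sum_congr rfl e6, Finset.sum_comm]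
      refine Finset.sum_congr rfl fun n _ => Finset.sum_congr rfl fun u _ =>
        Finset.sum_congr rfl fun v _ => ?_
      simp only [hf]
      have e61 : (((n + ((u * v : ℕ) : ℤ) : ℤ) : ℝ) + P0) = ((n : ℝ) + P0) + (u : ℝ) * v := by
        push_cast; ring
      have e62 : (((n + ((u * v : ℕ) : ℤ) : ℤ) : ℝ) + Q0) = ((n : ℝ) + Q0) + (u : ℝ) * v := by
        push_cast; ring
      rw [e61, e62]
    rw [e5]
    refine (norm_sum_le _ _).trans ?_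
    have h6 : ∀ n ∈ Ioc a b, ‖∑ u ∈ Ioc 0 Y, ∑ v ∈ Ioc 0 Y,
        nit α |((n : ℝ) + P0) + (u : ℝ) * v| * nit β |((n : ℝ) + Q0) + (u : ℝ) * v|‖ ≤
          (N : ℝ) ^ (4 / 5 : ℝ) * F := by
      intro n hn
      exact hloc l N α β ((n : ℝ) + P0) ((n : ℝ) + Q0) ρ hl hN hρ0 hρ1 hm1 hm2 (hND n hn)
    refine (Finset.sum_le_sum h6).trans ?_
    rw [Finset.sum_const, nsmul_eq_mul]
    exact mul_le_mul_of_nonneg_right hcard (by positivity)
  have key3 : (Y : ℝ) * Y * ‖S‖ ≤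
      101 * N * ((N : ℝ) ^ (4 / 5 : ℝ) * F) + (Y : ℝ) * (Y * (2 * (Y * Y))) := by
    have e7 : ((Y : ℂ) * Y) * S =
        ∑ u ∈ Ioc 0 Y, ∑ v ∈ Ioc 0 Y, ∑ n ∈ Ioc a b, f (n + ((u * v : ℕ) : ℤ)) +
        ∑ u ∈ Ioc 0 Y, ∑ v ∈ Ioc 0 Y, (S - ∑ n ∈ Ioc a b, f (n + ((u * v : ℕ) : ℤ))) := by
      rw [← Finset.sum_add_distrib]
      have e8 : ∀ u ∈ Ioc 0 Y, (∑ v ∈ Ioc 0 Y, ∑ n ∈ Ioc a b, f (n + ((u * v : ℕ) : ℤ)) +
          ∑ v ∈ Ioc 0 Y, (S - ∑ n ∈ Ioc a b, f (n + ((u * v : ℕ) : ℤ)))) = (Y : ℂ) * S := by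
        intro u _
        rw [← Finset.sum_add_distrib]
        have e9 : ∀ v ∈ Ioc 0 Y, (∑ n ∈ Ioc a b, f (n + ((u * v : ℕ) : ℤ)) +
            (S - ∑ n ∈ Ioc a b, f (n + ((u * v : ℕ) : ℤ)))) = S := fun v _ => by ring
        rw [Finset.sum_congr rfl e9]
        simp
      rw [Finset.sum_congr rfl e8]
      simp [mul_assoc]
    have e10 : (Y : ℝ) * Y * ‖S‖ = ‖((Y : ℂ) * Y) * S‖ := by
      rw [norm_mul, norm_mul]
      simp
    rw [e10, e7]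
    exact (norm_add_le _ _).trans (add_le_add key2 key1)
  -- numerics
  have hS0 : 0 ≤ ‖S‖ := norm_nonneg _
  have key4 : ‖S‖ ≤ 404 * N * F + 2 * (P * P) := by
    rw [← hPP] at key3
    have hYY : 0 < (Y : ℝ) * Y := by positivity
    have h7 : P * P ≤ 4 * ((Y : ℝ) * Y) := by nlinarith
    have h8 : (Y : ℝ) * Y ≤ P * P := mul_le_mul hYP hYP hY0.le (by linarith)
    have h9 : 101 * N * (P * P * F) ≤ (Y : ℝ) * Y * (404 * N * F) := by
      have : 0 ≤ (N : ℝ) * F := by positivity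
      have h91 := mul_le_mul_of_nonneg_right h7 this
      nlinarith
    have h10 : (Y : ℝ) * (Y * (2 * (Y * Y))) ≤ (Y : ℝ) * Y * (2 * (P * P)) := by
      nlinarith
    have h11 : (Y : ℝ) * Y * ‖S‖ ≤ (Y : ℝ) * Y * (404 * N * F + 2 * (P * P)) := by
      calc (Y : ℝ) * Y * ‖S‖ ≤ 101 * N * (P * P * F) + (Y : ℝ) * (Y * (2 * (Y * Y))) := key3
        _ ≤ (Y : ℝ) * Y * (404 * N * F) + (Y : ℝ) * Y * (2 * (P * P)) := add_le_add h9 h10
        _ = _ := by ring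
    exact le_of_mul_le_mul_left h11 hYY
  refine key4.trans ?_
  have hl6 : (1 : ℝ) ≤ (l : ℝ) ^ 6 := one_le_pow₀ hl1
  have hl3 : (1 : ℝ) ≤ (l : ℝ) ^ 3 := one_le_pow₀ hl1
  set E : ℝ := (N : ℝ) ^ (-(1 / (((C + 450 : ℕ) : ℝ) * (l : ℝ) ^ 6))) with hE
  have hE0 : 0 < E := by positivity
  have hFE : F ≤ Real.exp (C * (l : ℝ) ^ 3) * E / ρ := by
    rw [hF, hE]
    refine div_le_div_of_nonneg_right ?_ hρ0.le
    refine mul_le_mul_of_nonneg_left ?_ (Real.exp_pos _).le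
    refine Real.rpow_le_rpow_of_exponent_le hN1 ?_
    rw [neg_le_neg_iff]
    refine one_div_le_one_div_of_le (by positivity) ?_
    refine mul_le_mul_of_nonneg_right ?_ (by positivity)
    push_cast
    linarith
  have hPE : P * P ≤ N * E / ρ := by
    have hPE0 : P * P ≤ N * E := by
      rw [hPP, hE]
      have e11 : (N : ℝ) * (N : ℝ) ^ (-(1 / (((C + 450 : ℕ) : ℝ) * (l : ℝ) ^ 6))) =
          (N : ℝ) ^ (1 + -(1 / (((C + 450 : ℕ) : ℝ) * (l : ℝ) ^ 6))) := by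
        rw [Real.rpow_add hN0, Real.rpow_one]
      rw [e11]
      refine Real.rpow_le_rpow_of_exponent_le hN1 ?_
      have h12 : 1 / (((C + 450 : ℕ) : ℝ) * (l : ℝ) ^ 6) ≤ 1 / 5 := by
        refine one_div_le_one_div_of_le (by norm_num) ?_
        push_cast
        nlinarith
      linarith
    refine hPE0.trans ?_
    rw [le_div_iff₀ hρ0]
    have : 0 ≤ (N : ℝ) * E := by positivity
    nlinarith
  have hexp : 404 * Real.exp (C * (l : ℝ) ^ 3) + 2 ≤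
      Real.exp (((C + 450 : ℕ) : ℝ) * (l : ℝ) ^ 3) := by
    have h13 : Real.exp (((C + 450 : ℕ) : ℝ) * (l : ℝ) ^ 3) =
        Real.exp (C * (l : ℝ) ^ 3) * Real.exp (450 * (l : ℝ) ^ 3) := by
      rw [← Real.exp_add]; congr 1; push_cast; ring
    have h14 : (406 : ℝ) ≤ Real.exp (450 * (l : ℝ) ^ 3) := by
      have := Real.add_one_le_exp (450 * (l : ℝ) ^ 3)
      linarith
    have h15 : 1 ≤ Real.exp (C * (l : ℝ) ^ 3) := Real.one_le_exp (by positivity)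
    rw [h13]
    nlinarith
  calc 404 * N * F + 2 * (P * P)
      ≤ 404 * N * (Real.exp (C * (l : ℝ) ^ 3) * E / ρ) + 2 * (N * E / ρ) := by
        refine add_le_add (mul_le_mul_of_nonneg_left hFE (by positivity)) ?_
        exact mul_le_mul_of_nonneg_left hPE (by norm_num)
    _ = N * E / ρ * (404 * Real.exp (C * (l : ℝ) ^ 3) + 2) := by ring
    _ ≤ N * E / ρ * Real.exp (((C + 450 : ℕ) : ℝ) * (l : ℝ) ^ 3) :=
        mul_le_mul_of_nonneg_left hexp (by positivity)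
    _ = _ := by ring

end Pool.Agent.BP
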